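import Pool.Agent.Helper74.OKA.Defs

/-!
# Polyhedra around a convex compact set

Piece A13 of the formalisation of `BAP ⇒ CAP` (MP_7bedea_an).
-/

set_option autoImplicit false

open Set Metric Topology MeasureTheory
open scoped Manifold ContDiff

namespace Pool.Agent.Helper82.OKA

open Pool.Agent.Helper74.OKA

variable {G : Type} [NormedAddCommGroup G] [NormedSpace ℂ G] [FiniteDimensional ℂ G]

namespace A13

/-- coordinates with a prescribed first functional -/
theorem exists_coord (μ : G →L[ℂ] ℂ) (hμ : μ ≠ 0) : ∃ (n : ℕ)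
    (e : Fin (n + 1) → G →L[ℂ] ℂ) (v : Fin (n + 1) → G), IsCoord e v ∧ e 0 = μ := by
  obtain ⟨y, hy⟩ : ∃ y, μ y ≠ 0 := by
    by_contra hcon
    push Not at hcon
    exact hμ (ContinuousLinearMap.ext hcon)
  obtain ⟨y, hy⟩ : ∃ y, μ y = 1 := ⟨(μ y)⁻¹ • y, by
    rw [map_smul, smul_eq_mul, inv_mul_cancel₀ hy]⟩
  let N : Submodule ℂ G := LinearMap.ker (μ : G →ₗ[ℂ] ℂ)
  have hN : ∀ x, x ∈ N ↔ μ x = 0 := fun x => LinearMap.mem_ker
  let b := Module.Basis.mkFinCons y (Module.finBasis ℂ N)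
    (by
      intro c x hx h
      have h1 := congrArg μ h
      rw [map_add, map_smul, hy, (hN x).1 hx, map_zero, add_zero, smul_eq_mul, mul_one] at h1
      exact h1)
    (by
      intro z
      refine ⟨-μ z, ?_⟩
      rw [hN, map_add, map_smul, hy, smul_eq_mul, mul_one, add_neg_cancel])
  have hb : (b : Fin (Module.finrank ℂ N + 1) → G) =
      Fin.cons y ((↑) ∘ Module.finBasis ℂ N) := Module.Basis.coe_mkFinCons _ _ _ _
  refine ⟨Module.finrank ℂ N, fun i => LinearMap.toContinuousLinearMap (b.coord i), b,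
    ⟨?_, ?_⟩, ?_⟩
  · intro i j
    show b.coord i (b j) = if i = j then 1 else 0
    rw [Module.Basis.coord_apply, Module.Basis.repr_self, Finsupp.single_apply]
    simp only [eq_comm]
  · intro z
    exact b.sum_repr z
  · apply ContinuousLinearMap.coe_injective
    show b.coord 0 = (μ : G →ₗ[ℂ] ℂ)
    apply b.ext
    intro j
    rw [Module.Basis.coord_apply, Module.Basis.repr_self, Finsupp.single_apply]
    show (if j = 0 then (1 : ℂ) else 0) = μ (b j)
    rw [hb]
    refine Fin.cases ?_ (fun k => ?_) j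
    · simp [hy]
    · have h1 : μ ((Module.finBasis ℂ N k : N) : G) = 0 := (hN _).1 (Module.finBasis ℂ N k).2
      simp [h1, Fin.succ_ne_zero]

omit [FiniteDimensional ℂ G] in
/-- bound of a functional on a compact set -/
theorem exists_bound {X : Set G} (hX : IsCompact X) (f : G →L[ℂ] ℂ) :
    ∃ B : ℝ, ∀ x ∈ X, ‖f x‖ ≤ B := by
  obtain ⟨B, hB⟩ := (hX.image f.continuous).isBounded.exists_norm_le
  exact ⟨B, fun x hx => hB _ (mem_image_of_mem _ hx)⟩

end A13

/-! ### A13 (uses A12) -/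
/-- polyhedra around a convex compact set -/
theorem exists_poly (X : Set G) (hX : IsCompact X) (hXc : Convex ℝ X) (m : G →L[ℝ] ℝ)
    (hm : m ≠ 0) (t : ℝ) (W : Set G) (hW : IsOpen W) (h : X ∩ {z | m z = t} ⊆ W) :
    ∃ (ι : Type) (_ : Fintype ι) (_ : DecidableEq ι) (e : ι → G →L[ℂ] ℂ) (v : ι → G)
      (Q : ι → Set ℂ) (L : List ((G →L[ℂ] ℂ) × Set ℂ)) (i : ι), IsCoord e v ∧
      (∀ i, IsRect (Q i)) ∧ (∀ x ∈ L, IsRect x.2) ∧ (∀ z, (e i z).re = m z) ∧
      X ⊆ Poly e Q L ∧ Poly e Q L ∩ {z | m z = t} ⊆ W := by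
  -- complexify `m`
  let μ : G →L[ℂ] ℂ := StrongDual.extendRCLike (𝕜 := ℂ) m
  have hμre : ∀ z, (μ z).re = m z := fun z => StrongDual.re_extendRCLike_apply (𝕜 := ℂ) m z
  have hμ : μ ≠ 0 := by
    intro h0
    apply hm
    ext z
    rw [← hμre z, h0]
    rfl
  obtain ⟨n, e, v, hev, he0⟩ := A13.exists_coord μ hμ
  -- the box
  choose B hB using fun i => A13.exists_bound hX (e i)
  let Q : Fin (n + 1) → Set ℂ := fun i =>
    {w | -B i ≤ w.re ∧ w.re ≤ B i ∧ -B i ≤ w.im ∧ w.im ≤ B i}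
  have hXQ : ∀ x ∈ X, ∀ i, e i x ∈ Q i := by
    intro x hx i
    have h1 := abs_le.1 ((Complex.abs_re_le_norm _).trans (hB i x hx))
    have h2 := abs_le.1 ((Complex.abs_im_le_norm _).trans (hB i x hx))
    exact ⟨h1.1, h1.2, h2.1, h2.2⟩
  have hQclosed : ∀ i, IsClosed (Q i) := by
    intro i
    exact ((isClosed_le continuous_const Complex.continuous_re).inter
      ((isClosed_le Complex.continuous_re continuous_const).inter
      ((isClosed_le continuous_const Complex.continuous_im).inter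
      (isClosed_le Complex.continuous_im continuous_const))))
  have hCcpt : IsCompact ({z | (∀ i, e i z ∈ Q i)} ∩ ({z | m z = t} ∩ Wᶜ)) := by
    have : ProperSpace G := FiniteDimensional.proper ℂ G
    refine Metric.isCompact_of_isClosed_isBounded ?_ ?_
    · refine IsClosed.inter ?_ ((isClosed_eq m.continuous continuous_const).inter
        hW.isClosed_compl)
      have h1 : {z | (∀ i, e i z ∈ Q i)} = ⋂ i, (e i) ⁻¹' (Q i) := by
        ext z; simp
      rw [h1]
      exact isClosed_iInter fun i => (hQclosed i).preimage (e i).continuous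
    · refine (Metric.isBounded_iff_subset_closedBall 0).2
        ⟨∑ i, (|B i| + |B i|) * ‖v i‖, ?_⟩
      rintro z ⟨hz, -⟩
      rw [mem_closedBall_zero_iff, ← hev.2 z]
      refine (norm_sum_le _ _).trans (Finset.sum_le_sum fun i _ => ?_)
      rw [norm_smul]
      have h2 : ‖e i z‖ ≤ |B i| + |B i| := by
        obtain ⟨h3, h4, h5, h6⟩ := hz i
        refine (Complex.norm_le_abs_re_add_abs_im _).trans (add_le_add ?_ ?_)
        · exact (abs_le.2 ⟨h3, h4⟩).trans (le_abs_self _)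
        · exact (abs_le.2 ⟨h5, h6⟩).trans (le_abs_self _)
      gcongr
  -- finitely many further functionals
  have hL : ∃ L : List ((G →L[ℂ] ℂ) × Set ℂ), (∀ x ∈ L, IsRect x.2) ∧
      (∀ z ∈ X, ∀ x ∈ L, x.1 z ∈ x.2) ∧
      ∀ z ∈ ({z | (∀ i, e i z ∈ Q i)} ∩ ({z | m z = t} ∩ Wᶜ)), ¬ ∀ x ∈ L, x.1 z ∈ x.2 := by
    refine hCcpt.induction_on (p := fun S => ∃ L : List ((G →L[ℂ] ℂ) × Set ℂ),
      (∀ x ∈ L, IsRect x.2) ∧ (∀ z ∈ X, ∀ x ∈ L, x.1 z ∈ x.2) ∧
      ∀ z ∈ S, ¬ ∀ x ∈ L, x.1 z ∈ x.2) ?_ ?_ ?_ ?_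
    · exact ⟨[], by simp, by simp, by simp⟩
    · rintro S T hST ⟨L, h1, h2, h3⟩
      exact ⟨L, h1, h2, fun z hz => h3 z (hST hz)⟩
    · rintro S T ⟨L, h1, h2, h3⟩ ⟨L', h1', h2', h3'⟩
      refine ⟨L ++ L', ?_, ?_, ?_⟩
      · intro x hx
        rcases List.mem_append.1 hx with hx | hx
        · exact h1 x hx
        · exact h1' x hx
      · intro z hz x hx
        rcases List.mem_append.1 hx with hx | hx
        · exact h2 z hz x hx
        · exact h2' z hz x hx
      · rintro z (hz | hz) hall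
        · exact h3 z hz fun x hx => hall x (List.mem_append.2 (Or.inl hx))
        · exact h3' z hz fun x hx => hall x (List.mem_append.2 (Or.inr hx))
    · rintro x₀ ⟨-, hx₀t, hx₀W⟩
      have hx₀X : x₀ ∉ X := fun hx => hx₀W (h ⟨hx, hx₀t⟩)
      obtain ⟨f, u, hfX, hfx⟩ := RCLike.geometric_hahn_banach_closed_point (𝕜 := ℂ) hXc
        hX.isClosed hx₀X
      obtain ⟨b, hb⟩ := A13.exists_bound hX f
      refine ⟨{z | u < (f z).re}, mem_nhdsWithin_of_mem_nhds
        ((isOpen_lt continuous_const (Complex.continuous_re.comp f.continuous)).mem_nhds hfx),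
        [(f, {w | -b ≤ w.re ∧ w.re ≤ u ∧ -b ≤ w.im ∧ w.im ≤ b})], ?_, ?_, ?_⟩
      · intro x hx
        rw [List.mem_singleton] at hx
        subst hx
        exact ⟨-b, u, -b, b, rfl⟩
      · intro z hz x hx
        rw [List.mem_singleton] at hx
        subst hx
        have h1 := abs_le.1 ((Complex.abs_re_le_norm _).trans (hb z hz))
        have h2 := abs_le.1 ((Complex.abs_im_le_norm _).trans (hb z hz))
        exact ⟨h1.1, (hfX z hz).le, h2.1, h2.2⟩
      · intro z hz hall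
        have h1 := (hall _ (List.mem_singleton.2 rfl)).2.1
        exact absurd h1 (not_le.2 hz)
  obtain ⟨L, hL1, hL2, hL3⟩ := hL
  refine ⟨Fin (n + 1), inferInstance, inferInstance, e, v, Q, L, 0, hev, fun i => ⟨_, _, _, _, rfl⟩,
    hL1, ?_, ?_, ?_⟩
  · intro z
    rw [he0]
    exact hμre z
  · intro z hz
    exact ⟨hXQ z hz, hL2 z hz⟩
  · rintro z ⟨⟨hz1, hz2⟩, hzt⟩
    by_contra hzW
    exact hL3 z ⟨hz1, hzt, hzW⟩ hz2

end Pool.Agent.Helper82.OKA
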