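import Pool.Agent.Helper74.OKA.Defs

/-!
# Ball-like sets: closed balls, affine images, products with a point

Pieces B3b, B3c, B3d of the formalisation of `BAP ⇒ CAP` (MP_7bedea_an).
-/

set_option autoImplicit false

open Set Metric Topology
open scoped Manifold ContDiff

namespace Pool.Agent.Helper82.OKA

open Pool.Agent.Helper74.OKA

variable {E E' H : Type} [NormedAddCommGroup E] [NormedSpace ℂ E] [FiniteDimensional ℂ E]
  [NormedAddCommGroup E'] [NormedSpace ℂ E'] [FiniteDimensional ℂ E']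
  [NormedAddCommGroup H] [InnerProductSpace ℂ H] [FiniteDimensional ℂ H]

namespace B3

/-- a neighbourhood of the closed unit ball contains a slightly larger open ball -/
theorem exists_ball_subset {V : Set H} (hV : IsOpen V) (h : closedBall (0 : H) 1 ⊆ V) :
    ∃ δ > 0, ball (0 : H) (1 + δ) ⊆ V := by
  have : ProperSpace H := FiniteDimensional.proper ℂ H
  obtain ⟨δ, hδ, hsub⟩ := (isCompact_closedBall (0 : H) 1).exists_thickening_subset_open hV h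
  refine ⟨δ, hδ, fun x hx => hsub ?_⟩
  rw [thickening_closedBall hδ zero_le_one]
  rw [mem_ball_zero_iff] at hx ⊢
  linarith

/-- the Hilbert product of two finite dimensional inner product spaces, with its projections -/
theorem exists_prod (H₁ H₂ : Type) [NormedAddCommGroup H₁] [InnerProductSpace ℂ H₁]
    [FiniteDimensional ℂ H₁] [NormedAddCommGroup H₂] [InnerProductSpace ℂ H₂]
    [FiniteDimensional ℂ H₂] : ∃ (H : Type) (_ : NormedAddCommGroup H)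
      (_ : InnerProductSpace ℂ H) (_ : FiniteDimensional ℂ H) (p₁ : H →L[ℂ] H₁)
      (p₂ : H →L[ℂ] H₂) (j : H₁ × H₂ →L[ℂ] H), (∀ x, p₁ (j x) = x.1) ∧
      (∀ x, p₂ (j x) = x.2) ∧ ∀ x, ‖x‖ ^ 2 = ‖p₁ x‖ ^ 2 + ‖p₂ x‖ ^ 2 := by
  refine ⟨WithLp 2 (H₁ × H₂), inferInstance, inferInstance, inferInstance,
    (ContinuousLinearMap.fst ℂ H₁ H₂).comp
      (WithLp.prodContinuousLinearEquiv 2 ℂ H₁ H₂).toContinuousLinearMap,
    (ContinuousLinearMap.snd ℂ H₁ H₂).comp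
      (WithLp.prodContinuousLinearEquiv 2 ℂ H₁ H₂).toContinuousLinearMap,
    (WithLp.prodContinuousLinearEquiv 2 ℂ H₁ H₂).symm.toContinuousLinearMap,
    fun x => rfl, fun x => rfl, fun x => WithLp.prod_norm_sq_eq_of_L2 x⟩

end B3

/-- B3c -/
theorem ballLike_closedBall : BallLike (closedBall (0 : H) 1) := by
  intro U hU hKU
  obtain ⟨δ, hδ, hsub⟩ := B3.exists_ball_subset hU hKU
  have hθ : (0 : ℝ) < 1 + δ / 2 := by linarith
  refine ⟨H, inferInstance, inferInstance, inferInstance, fun x => ((1 + δ / 2 : ℝ) : ℂ) • x,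
    ball 0 ((1 + δ) / (1 + δ / 2)), ball 0 (1 + δ / 2), isOpen_ball, ?_, ?_, ?_, isOpen_ball,
    ?_, ?_, ?_⟩
  · intro x hx
    rw [mem_closedBall_zero_iff] at hx
    rw [mem_ball_zero_iff, lt_div_iff₀ hθ]
    nlinarith [norm_nonneg x]
  · exact (differentiable_id.const_smul ((1 + δ / 2 : ℝ) : ℂ)).differentiableOn
  · intro x hx
    apply hsub
    rw [mem_ball_zero_iff, lt_div_iff₀ hθ] at hx
    rw [mem_ball_zero_iff, norm_smul, Complex.norm_real, Real.norm_of_nonneg hθ.le, mul_comm]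
    exact hx
  · intro x hx
    rw [mem_closedBall_zero_iff] at hx
    rw [mem_ball_zero_iff]
    linarith
  · intro x hx
    apply hsub
    rw [mem_ball_zero_iff] at hx ⊢
    linarith
  · intro ε hε
    refine ⟨fun z => (((1 + δ / 2 : ℝ) : ℂ)⁻¹) • z,
      differentiable_id.const_smul (((1 + δ / 2 : ℝ) : ℂ)⁻¹), ?_⟩
    intro z hz
    rw [mem_ball_zero_iff] at hz
    constructor
    · rw [norm_smul, norm_inv, Complex.norm_real, Real.norm_of_nonneg hθ.le,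
        inv_mul_le_iff₀ hθ, mul_one]
      exact hz.le
    · have hne : ((1 + δ / 2 : ℝ) : ℂ) ≠ 0 := by
        rw [Complex.ofReal_ne_zero]; exact hθ.ne'
      simp only [smul_smul, mul_inv_cancel₀ hne, one_smul, sub_self, norm_zero]
      exact hε

omit [FiniteDimensional ℂ E] [FiniteDimensional ℂ E'] in
/-- B3d (no finiteness needed) -/
theorem BallLike.image {K : Set E} (h : BallLike K) (e : E ≃L[ℂ] E') (c : E') :
    BallLike ((fun z => e z + c) '' K) := by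
  intro U hU hKU
  have hcont : Continuous (fun z => e z + c) := e.continuous.add continuous_const
  obtain ⟨H, i1, i2, i3, Φ, V, W, hV, hcV, hΦ, hΦU, hW, hKW, hWU, hψ⟩ :=
    h ((fun z => e z + c) ⁻¹' U) (hU.preimage hcont) (image_subset_iff.1 hKU)
  have hcont' : Continuous (fun z : E' => e.symm (z - c)) :=
    e.symm.continuous.comp (continuous_id.sub continuous_const)
  refine ⟨H, i1, i2, i3, fun x => e (Φ x) + c, V, (fun z : E' => e.symm (z - c)) ⁻¹' W, hV, hcV,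
    ?_, ?_, hW.preimage hcont', ?_, ?_, ?_⟩
  · exact (e.differentiable.comp_differentiableOn hΦ).add_const c
  · intro x hx
    exact hΦU hx
  · rintro _ ⟨z, hz, rfl⟩
    simp only [mem_preimage, add_sub_cancel_right, ContinuousLinearEquiv.symm_apply_apply]
    exact hKW hz
  · intro z hz
    have := hWU hz
    simpa using this
  · intro ε hε
    have hne : 0 < ‖(e : E →L[ℂ] E')‖ + 1 := by positivity
    obtain ⟨ψ, hψd, hψW⟩ := hψ (ε / (‖(e : E →L[ℂ] E')‖ + 1)) (by positivity)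
    refine ⟨fun z => ψ (e.symm (z - c)), ?_, ?_⟩
    · exact hψd.comp (e.symm.differentiable.comp (differentiable_id.sub_const c))
    · intro z hz
      obtain ⟨h1, h2⟩ := hψW _ hz
      refine ⟨h1, ?_⟩
      have key : e (Φ (ψ (e.symm (z - c)))) + c - z
          = (e : E →L[ℂ] E') (Φ (ψ (e.symm (z - c))) - e.symm (z - c)) := by
        have h3 : (e : E →L[ℂ] E') (e.symm (z - c)) = z - c := e.apply_symm_apply _
        rw [ContinuousLinearMap.map_sub, h3]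
        show e (Φ (ψ (e.symm (z - c)))) + c - z = e (Φ (ψ (e.symm (z - c)))) - (z - c)
        abel
      show ‖e (Φ (ψ (e.symm (z - c)))) + c - z‖ < ε
      rw [key]
      calc ‖(e : E →L[ℂ] E') (Φ (ψ (e.symm (z - c))) - e.symm (z - c))‖
          ≤ ‖(e : E →L[ℂ] E')‖ * ‖Φ (ψ (e.symm (z - c))) - e.symm (z - c)‖ :=
            ContinuousLinearMap.le_opNorm _ _
        _ ≤ ‖(e : E →L[ℂ] E')‖ * (ε / (‖(e : E →L[ℂ] E')‖ + 1)) := by
            gcongr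
        _ < (‖(e : E →L[ℂ] E')‖ + 1) * (ε / (‖(e : E →L[ℂ] E')‖ + 1)) := by
            apply mul_lt_mul_of_pos_right (lt_add_one _)
            positivity
        _ = ε := by field_simp

omit [FiniteDimensional ℂ E] in
/-- B3b -/
theorem BallLike.prod_zero {K : Set E} (hK : IsCompact K) (h : BallLike K) :
    BallLike (K ×ˢ {0} : Set (E × E')) := by
  intro U hU hKU
  obtain ⟨U₁, U₂, hU₁, hU₂, hKU₁, h0U₂, hUU⟩ :=
    generalized_tube_lemma hK (isCompact_singleton (x := (0 : E'))) hU hKU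
  obtain ⟨H, i1, i2, i3, Φ, V, W, hV, hcV, hΦ, hΦU, hW, hKW, hWU, hψ⟩ := h U₁ hU₁ hKU₁
  obtain ⟨θ, hθ, hθV⟩ := B3.exists_ball_subset hV hcV
  obtain ⟨ρ, hρ, hρU⟩ := Metric.isOpen_iff.1 hU₂ 0 (h0U₂ rfl)
  -- the Euclidean copy of `E'`
  obtain ⟨n, ⟨e⟩⟩ : ∃ n : ℕ, Nonempty (EuclideanSpace ℂ (Fin n) ≃L[ℂ] E') :=
    ⟨Module.finrank ℂ E', ⟨ContinuousLinearEquiv.ofFinrankEq
      (by rw [finrank_euclideanSpace_fin])⟩⟩
  obtain ⟨a, ha⟩ : ∃ a : ℝ, a = 1 + θ / 2 := ⟨_, rfl⟩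
  have ha1 : 1 < a := by rw [ha]; linarith
  have ha0 : 0 < a := by linarith
  have hac : ((a : ℝ) : ℂ) ≠ 0 := by rw [Complex.ofReal_ne_zero]; exact ha0.ne'
  obtain ⟨δ, hδ⟩ : ∃ δ : ℝ, δ = ρ / (2 * (‖(e : EuclideanSpace ℂ (Fin n) →L[ℂ] E')‖ + 1)) :=
    ⟨_, rfl⟩
  have hNe : 0 < ‖(e : EuclideanSpace ℂ (Fin n) →L[ℂ] E')‖ + 1 := by positivity
  have hδ0 : 0 < δ := by rw [hδ]; positivity
  have hδc : ((δ : ℝ) : ℂ) ≠ 0 := by rw [Complex.ofReal_ne_zero]; exact hδ0.ne'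
  obtain ⟨H', j1, j2, j3, p₁, p₂, j, hj₁, hj₂, hn⟩ := B3.exists_prod H (EuclideanSpace ℂ (Fin n))
  have hp₁ : ∀ x, ‖p₁ x‖ ≤ ‖x‖ := by
    intro x
    have h1 : ‖x‖ ^ 2 = ‖p₁ x‖ ^ 2 + ‖p₂ x‖ ^ 2 := hn x
    exact (sq_le_sq₀ (norm_nonneg _) (norm_nonneg _)).1 (by nlinarith [sq_nonneg ‖p₂ x‖])
  have hp₂ : ∀ x, ‖p₂ x‖ ≤ ‖x‖ := by
    intro x
    have h1 : ‖x‖ ^ 2 = ‖p₁ x‖ ^ 2 + ‖p₂ x‖ ^ 2 := hn x
    exact (sq_le_sq₀ (norm_nonneg _) (norm_nonneg _)).1 (by nlinarith [sq_nonneg ‖p₁ x‖])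
  have hball : ∀ y : EuclideanSpace ℂ (Fin n), ‖y‖ ≤ 1 → ((δ : ℝ) : ℂ) • e y ∈ U₂ := by
    intro y hy
    apply hρU
    rw [mem_ball_zero_iff, norm_smul, Complex.norm_real, Real.norm_of_nonneg hδ0.le]
    have h1 : ‖e y‖ ≤ ‖(e : EuclideanSpace ℂ (Fin n) →L[ℂ] E')‖ := by
      calc ‖e y‖ ≤ ‖(e : EuclideanSpace ℂ (Fin n) →L[ℂ] E')‖ * ‖y‖ :=
            (e : EuclideanSpace ℂ (Fin n) →L[ℂ] E').le_opNorm y
        _ ≤ ‖(e : EuclideanSpace ℂ (Fin n) →L[ℂ] E')‖ * 1 := by gcongr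
        _ = _ := mul_one _
    calc δ * ‖e y‖ ≤ δ * (‖(e : EuclideanSpace ℂ (Fin n) →L[ℂ] E')‖ + 1) := by
          gcongr; linarith
      _ = ρ / 2 := by rw [hδ]; field_simp
      _ < ρ := by linarith
  -- the neighbourhood in the second variable
  have hη : ∃ η > 0, ∀ w : E', w ∈ ball (0 : E') η → w ∈ U₂ ∧
      ‖(((δ : ℝ) : ℂ)⁻¹) • e.symm w‖ ^ 2 ≤ 1 - (1 / a) ^ 2 := by
    have hpos : 0 < 1 - (1 / a) ^ 2 := by
      have : 1 / a < 1 := by rw [div_lt_one ha0]; exact ha1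
      have h0 : 0 < 1 / a := by positivity
      nlinarith
    have hc : Continuous (fun w : E' => ‖(((δ : ℝ) : ℂ)⁻¹) • e.symm w‖ ^ 2) := by
      have h1 : Continuous (fun w : E' => e.symm w) := e.symm.continuous
      have h2 : Continuous (fun w : E' => (((δ : ℝ) : ℂ)⁻¹) • e.symm w) := by
        fun_prop
      exact h2.norm.pow 2
    have hev : ∀ᶠ w in 𝓝 (0 : E'), ‖(((δ : ℝ) : ℂ)⁻¹) • e.symm w‖ ^ 2 < 1 - (1 / a) ^ 2 := by
      apply hc.continuousAt.eventually_lt continuousAt_const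
      simpa using hpos
    obtain ⟨η, hη, hηs⟩ := Metric.eventually_nhds_iff_ball.1
      (hev.and (hU₂.mem_nhds (h0U₂ rfl)))
    exact ⟨η, hη, fun w hw => ⟨(hηs w hw).2, (hηs w hw).1.le⟩⟩
  obtain ⟨η, hη, hηs⟩ := hη
  refine ⟨H', j1, j2, j3,
    fun x => (Φ (((a : ℝ) : ℂ) • p₁ x), ((δ : ℝ) : ℂ) • e (p₂ x)),
    {x | ((a : ℝ) : ℂ) • p₁ x ∈ V ∧ ((δ : ℝ) : ℂ) • e (p₂ x) ∈ U₂}, W ×ˢ ball 0 η,
    ?_, ?_, ?_, ?_, hW.prod isOpen_ball, ?_, ?_, ?_⟩
  · exact (hV.preimage (p₁.continuous.const_smul _)).inter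
      (hU₂.preimage ((e.continuous.comp p₂.continuous).const_smul _))
  · intro x hx
    rw [mem_closedBall_zero_iff] at hx
    refine ⟨hθV ?_, hball _ ((hp₂ x).trans hx)⟩
    rw [mem_ball_zero_iff, norm_smul, Complex.norm_real, Real.norm_of_nonneg ha0.le]
    have := hp₁ x
    nlinarith [norm_nonneg (p₁ x)]
  · apply DifferentiableOn.prodMk
    · exact hΦ.comp (p₁.differentiable.const_smul _).differentiableOn (fun x hx => hx.1)
    · exact ((e.differentiable.comp p₂.differentiable).const_smul _).differentiableOn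
  · intro x hx
    exact hUU ⟨hΦU hx.1, hx.2⟩
  · rintro ⟨z, w⟩ ⟨hz, hw⟩
    rw [mem_singleton_iff] at hw
    subst hw
    exact ⟨hKW hz, mem_ball_self hη⟩
  · rintro ⟨z, w⟩ ⟨hz, hw⟩
    exact hUU ⟨hWU hz, (hηs w hw).1⟩
  · intro ε hε
    obtain ⟨ψ, hψd, hψW⟩ := hψ ε hε
    refine ⟨fun x => j ((((a : ℝ) : ℂ)⁻¹) • ψ x.1, (((δ : ℝ) : ℂ)⁻¹) • e.symm x.2), ?_, ?_⟩
    · apply (ContinuousLinearMap.differentiable _).comp
      apply Differentiable.prodMk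
      · have h1 : Differentiable ℂ (fun x : E × E' => ψ x.1) := hψd.comp differentiable_fst
        exact h1.const_smul _
      · have h1 : Differentiable ℂ (fun x : E × E' => e.symm x.2) :=
          e.symm.differentiable.comp differentiable_snd
        fun_prop
    · rintro ⟨z, w⟩ ⟨hz, hw⟩
      obtain ⟨h1, h2⟩ := hψW z hz
      obtain ⟨-, h3⟩ := hηs w hw
      have q₁ : p₁ (j ((((a : ℝ) : ℂ)⁻¹) • ψ z, (((δ : ℝ) : ℂ)⁻¹) • e.symm w))
          = (((a : ℝ) : ℂ)⁻¹) • ψ z := hj₁ _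
      have q₂ : p₂ (j ((((a : ℝ) : ℂ)⁻¹) • ψ z, (((δ : ℝ) : ℂ)⁻¹) • e.symm w))
          = (((δ : ℝ) : ℂ)⁻¹) • e.symm w := hj₂ _
      constructor
      · have h5 := hn (j ((((a : ℝ) : ℂ)⁻¹) • ψ z, (((δ : ℝ) : ℂ)⁻¹) • e.symm w))
        rw [q₁, q₂] at h5
        have h6 : ‖(((a : ℝ) : ℂ)⁻¹) • ψ z‖ ≤ 1 / a := by
          rw [norm_smul, norm_inv, Complex.norm_real, Real.norm_of_nonneg ha0.le, one_div]
          calc a⁻¹ * ‖ψ z‖ ≤ a⁻¹ * 1 := by gcongr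
            _ = a⁻¹ := mul_one _
        have h7 : ‖(((a : ℝ) : ℂ)⁻¹) • ψ z‖ ^ 2 ≤ (1 / a) ^ 2 := by gcongr
        refine (sq_le_sq₀ (norm_nonneg _) zero_le_one).1 ?_
        rw [h5]
        linarith
      · show ‖((Φ (((a : ℝ) : ℂ) • p₁ (j ((((a : ℝ) : ℂ)⁻¹) • ψ z,
            (((δ : ℝ) : ℂ)⁻¹) • e.symm w))),
          ((δ : ℝ) : ℂ) • e (p₂ (j ((((a : ℝ) : ℂ)⁻¹) • ψ z,
            (((δ : ℝ) : ℂ)⁻¹) • e.symm w)))) : E × E') - (z, w)‖ < ε
        rw [q₁, q₂, smul_smul, mul_inv_cancel₀ hac, one_smul, map_smul, smul_smul,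
          mul_inv_cancel₀ hδc, one_smul, e.apply_symm_apply, Prod.mk_sub_mk, sub_self,
          Prod.norm_mk, norm_zero, max_eq_left (norm_nonneg _)]
        exact h2

end Pool.Agent.Helper82.OKA
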