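import Pool.Agent.Helper74.OKA.St.B2

/-!
# The product of a ball-like set with a real segment is ball-like

Piece B3a of the formalisation of `BAP ⇒ CAP` (MP_7bedea_an).
-/

set_option autoImplicit false

open Set Metric Topology
open scoped Manifold ContDiff

namespace Pool.Agent.Helper82.OKA

open Pool.Agent.Helper74.OKA

variable {E : Type} [NormedAddCommGroup E] [NormedSpace ℂ E] [FiniteDimensional ℂ E]

namespace B3

theorem isCompact_seg : IsCompact seg := by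
  have h : seg = (fun r : ℝ => (r : ℂ)) '' Icc (-1) 1 := by
    ext z
    constructor
    · rintro ⟨h1, h2⟩
      exact ⟨z.re, abs_le.1 h2, Complex.ext (by simp) (by simp [h1])⟩
    · rintro ⟨r, hr, rfl⟩
      exact ⟨Complex.ofReal_im r, by rw [Complex.ofReal_re]; exact abs_le.2 hr⟩
  rw [h]
  exact isCompact_Icc.image Complex.continuous_ofReal

end B3

omit [FiniteDimensional ℂ E] in
/-- B3a -/
theorem BallLike.prod_seg {K : Set E} (hK : IsCompact K) (h : BallLike K) :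
    BallLike (K ×ˢ seg : Set (E × ℂ)) := by
  intro U hU hKU
  obtain ⟨U₁, U₂, hU₁, hU₂, hKU₁, hsU₂, hUU⟩ :=
    generalized_tube_lemma hK B3.isCompact_seg hU hKU
  obtain ⟨H, i1, i2, i3, Φ, V, W, hV, hcV, hΦ, hΦU, hW, hKW, hWU, hψ⟩ := h U₁ hU₁ hKU₁
  have : ProperSpace H := FiniteDimensional.proper ℂ H
  obtain ⟨H', j1, j2, j3, Φ', V', W', hV', hcV', hΦ', hΦU', hW', hKW', hWU', hψ'⟩ :=
    ballLike_ball_seg (H := H) (V ×ˢ U₂) (hV.prod hU₂) (prod_mono hcV hsU₂)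
  obtain ⟨O₁, O₂, hO₁, hO₂, hcO₁, hsO₂, hOO⟩ :=
    generalized_tube_lemma (isCompact_closedBall (0 : H) 1) B3.isCompact_seg hW' hKW'
  have hOU : O₂ ⊆ U₂ := fun s hs => (hWU' (hOO ⟨hcO₁ (mem_closedBall_self zero_le_one), hs⟩ :
    ((0 : H), s) ∈ W')).2
  refine ⟨H', j1, j2, j3, fun x => (Φ (Φ' x).1, (Φ' x).2), V', W ×ˢ O₂, hV', hcV', ?_, ?_,
    hW.prod hO₂, prod_mono hKW hsO₂, ?_, ?_⟩
  · apply DifferentiableOn.prodMk
    · exact hΦ.comp (differentiable_fst.comp_differentiableOn hΦ') (fun x hx => (hΦU' hx).1)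
    · exact differentiable_snd.comp_differentiableOn hΦ'
  · intro x hx
    exact hUU ⟨hΦU (hΦU' hx).1, (hΦU' hx).2⟩
  · rintro ⟨z, s⟩ ⟨hz, hs⟩
    exact hUU ⟨hWU hz, hOU hs⟩
  · intro ε hε
    obtain ⟨ψ, hψd, hψW⟩ := hψ (ε / 2) (by positivity)
    -- uniform continuity of `Φ` at the closed ball
    have huc := (isCompact_closedBall (0 : H) 1).uniformContinuousAt_of_continuousAt Φ
      (fun x hx => (hΦ.differentiableAt (hV.mem_nhds (hcV hx))).continuousAt)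
      (Metric.dist_mem_uniformity (half_pos hε))
    obtain ⟨δ, hδ, hδs⟩ := Metric.mem_uniformity_dist.1 huc
    obtain ⟨ψ', hψd', hψW'⟩ := hψ' (min δ ε) (lt_min hδ hε)
    refine ⟨fun x => ψ' (ψ x.1, x.2), ?_, ?_⟩
    · exact hψd'.comp ((hψd.comp differentiable_fst).prodMk differentiable_snd)
    · rintro ⟨z, s⟩ ⟨hz, hs⟩
      obtain ⟨h1, h2⟩ := hψW z hz
      obtain ⟨h3, h4⟩ := hψW' (ψ z, s) (hOO ⟨hcO₁ (by rwa [mem_closedBall_zero_iff]), hs⟩)
      refine ⟨h3, ?_⟩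
      show ‖((Φ (Φ' (ψ' (ψ z, s))).1, (Φ' (ψ' (ψ z, s))).2) : E × ℂ) - (z, s)‖ < ε
      have h5 : ‖(Φ' (ψ' (ψ z, s))).1 - ψ z‖ < min δ ε :=
        lt_of_le_of_lt (norm_fst_le (Φ' (ψ' (ψ z, s)) - (ψ z, s))) h4
      have h6 : ‖(Φ' (ψ' (ψ z, s))).2 - s‖ < min δ ε :=
        lt_of_le_of_lt (norm_snd_le (Φ' (ψ' (ψ z, s)) - (ψ z, s))) h4
      rw [Prod.mk_sub_mk, Prod.norm_mk]
      apply max_lt
      · have h7 : dist (Φ (ψ z)) (Φ (Φ' (ψ' (ψ z, s))).1) < ε / 2 := by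
          refine hδs (a := ψ z) (b := (Φ' (ψ' (ψ z, s))).1) ?_ (by rwa [mem_closedBall_zero_iff])
          rw [dist_comm, dist_eq_norm]
          exact lt_of_lt_of_le h5 (min_le_left _ _)
        calc ‖Φ (Φ' (ψ' (ψ z, s))).1 - z‖
            = ‖(Φ (Φ' (ψ' (ψ z, s))).1 - Φ (ψ z)) + (Φ (ψ z) - z)‖ := by
              rw [sub_add_sub_cancel]
          _ ≤ ‖Φ (Φ' (ψ' (ψ z, s))).1 - Φ (ψ z)‖ + ‖Φ (ψ z) - z‖ := norm_add_le _ _
          _ < ε / 2 + ε / 2 := by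
              apply add_lt_add _ h2
              rw [← dist_eq_norm, dist_comm]
              exact h7
          _ = ε := add_halves ε
      · exact lt_of_lt_of_le h6 (min_le_right _ _)

end Pool.Agent.Helper82.OKA
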